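import Pool.Agent.Work.MP_a2bf38_gt.H.Defs

/-!
# Kähler spaces and semi-ample limit classes

`M` is a complex manifold with the charts `e c` and `Z` is a complex space, possibly singular, with
the local embeddings `q j : U j → ℂ^N`.
-/

open scoped ContDiff ENNReal ComplexOrder Topology
open Set Filter Pool.Agent.ToricKRF Pool.Agent.ToricKRF.G Pool.Agent.KRFS

namespace Pool.Agent.KRFT

/-- The function `G` is holomorphic on `S`. -/
def HolFun {n : ℕ} (G : Cn n → ℂ) (S : Set (Cn n)) : Prop :=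
  ContDiffOn ℝ ∞ G S ∧ ∀ z ∈ S, ∀ u, fderiv ℝ G z (J u) = Complex.I * fderiv ℝ G z u

section

variable {Z : Type} [TopologicalSpace Z] {N : ℕ} {P : Type}

/-- A Kähler form on the complex space `Z`: the open sets `U j` cover `Z`, the maps
`q j : U j → ℂ^N` are embeddings with values in the open sets `O j` and with holomorphic changes of
coordinates, and `K j` are smooth strictly plurisubharmonic functions on `O j` such that
`K j ∘ q j - K i ∘ q i` is locally the real part of a holomorphic function of `q i`. -/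
structure IsKahlerSpace (U : P → Set Z) (q : P → Z → Cn N) (O : P → Set (Cn N))
    (K : P → Cn N → ℝ) : Prop where
  isOpen : ∀ j, IsOpen (U j)
  cover : ∀ z, ∃ j, z ∈ U j
  embedding : ∀ j, Topology.IsEmbedding ((U j).domRestrict (q j))
  holo : ∀ i j, ∀ z ∈ U i ∩ U j, ∃ (S : Set (Cn N)) (G : Cn N → Cn N), IsOpen S ∧ q i z ∈ S ∧
    HolOn G S ∧ ∀ᶠ z' in 𝓝 z, q j z' = G (q i z')
  isOpen' : ∀ j, IsOpen (O j)
  mem : ∀ j, ∀ z ∈ U j, q j z ∈ O j
  smooth : ∀ j, ContDiffOn ℝ ∞ (K j) (O j)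
  psh : ∀ j, ∀ y ∈ O j, ∀ u, u ≠ 0 → 0 < levz (K j) u y
  compat : ∀ i j, ∀ z ∈ U i ∩ U j, ∃ (S : Set (Cn N)) (G : Cn N → ℂ), IsOpen S ∧ q i z ∈ S ∧
    HolFun G S ∧ ∀ᶠ z' in 𝓝 z, K j (q j z') - K i (q i z') = (G (q i z')).re

end

section

variable {M Z : Type} [TopologicalSpace M] [TopologicalSpace Z] {n N : ℕ} {κ P : Type}
  (e : κ → OpenPartialHomeomorph M (Cn n)) (U : P → Set Z) (q : P → Z → Cn N) (f : M → Z)

/-- the domain of `f` in the chart `e c` and the coordinates `q j` -/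
def fdom (c : κ) (j : P) : Set (Cn n) := {x | x ∈ (e c).target ∧ f ((e c).symm x) ∈ U j}

/-- `f` in the chart `e c` and the coordinates `q j` -/
def fmap (c : κ) (j : P) (x : Cn n) : Cn N := q j (f ((e c).symm x))

/-- `f : M → Z` is holomorphic and onto, with connected fibres. -/
structure IsHolConn : Prop where
  cont : Continuous f
  surj : Function.Surjective f
  holo : ∀ c j, HolOn (fmap e q f c j) (fdom e U f c j)
  connected : ∀ z, IsPreconnected (f ⁻¹' {z})

/-- The limit class `[ω(0)] - 2πT c_1(M)` is the pull-back under `f` of the class of the Kähler form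
`i ∂ ∂bar K` of `Z`: there is a volume form `Ω` on `M` with
`ω(0) + T i ∂ ∂bar log Ω = i ∂ ∂bar (K ∘ f)`. -/
structure IsSemiampleLimit (T : ℝ) (ψ : κ → ℝ × Cn n → ℝ) (Ω : κ → Cn n → ℝ)
    (K : P → Cn N → ℝ) : Prop where
  volume : IsVolume e ψ Ω
  eq : ∀ c j, ∀ z ∈ fdom e U f c j, ∀ u,
    lev (ψ c) u (0, z) + T * levz (fun z => Real.log (Ω c z)) u z =
      levz (fun z => K j (fmap e q f c j z)) u z

end

end Pool.Agent.KRFT
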