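import Pool.Agent.Work.MP_a2bf38_gt.T.Defs
import Pool.Agent.Work.MP_a2bf38_gt.Z.Top

/-!
# Metrics on complex manifolds and on complex spaces
-/

open scoped ContDiff ENNReal ComplexOrder Topology
open Set Filter Pool.Agent.ToricKRF Pool.Agent.ToricKRF.G Pool.Agent.KRFS Pool.Agent.KRFF

namespace Pool.Agent.KRFT

/-- a function which is a smooth function of the coordinates is Lipschitz in the coordinates -/
theorem lip_of_eventually {X : Type} [TopologicalSpace X] {n m : ℕ} {a : X → Cn n} {b : X → Cn m}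
    {p : X} (ha : ContinuousAt a p) {G : Cn n → Cn m} (hG : ContDiffAt ℝ 1 G (a p))
    (h : ∀ᶠ x in 𝓝 p, b x = G (a x)) : ∃ C, 0 < C ∧ ∀ᶠ x : X × X in 𝓝 (p, p),
      dist (b x.1) (b x.2) ≤ C * dist (a x.1) (a x.2) := by
  obtain ⟨C, t, ht, hC⟩ := hG.exists_lipschitzOnWith
  have h1 : ∀ᶠ x in 𝓝 p, b x = G (a x) ∧ a x ∈ t := h.and (ha ht)
  refine ⟨C + 1, by positivity, ?_⟩
  rw [nhds_prod_eq]
  filter_upwards [h1.prod_mk h1] with x hx
  rw [hx.1.1, hx.2.1]
  refine (hC.dist_le_mul _ hx.1.2 _ hx.2.2).trans ?_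
  gcongr
  linarith

theorem isCoord_charts {M : Type} [TopologicalSpace M] {n : ℕ} {κ : Type}
    {e : κ → OpenPartialHomeomorph M (Cn n)} (he : IsAtlas e) :
    KRFZ.IsCoord (fun c => (e c).source) (fun c => (e c : M → Cn n)) where
  isOpen c := (e c).open_source
  cover := he.cover
  cont c := (e c).continuousOn
  inj c := (e c).injOn
  nhds c p hp W hW := by
    have h1 : e c '' (W ∩ (e c).source) ∈ 𝓝 (e c p) :=
      (e c).image_mem_nhds hp (inter_mem hW ((e c).open_source.mem_nhds hp))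
    obtain ⟨ε, hε, hsub⟩ := Metric.mem_nhds_iff.1 h1
    refine ⟨ε, hε, fun p' hp' hd => ?_⟩
    obtain ⟨y, ⟨hyW, hys⟩, hy⟩ := hsub hd
    rwa [(e c).injOn hys hp' hy] at hyW
  lip c c' p hp hp' := by
    refine lip_of_eventually ((e c).continuousAt hp) (G := tr e c c') ?_ ?_
    · have hd : e c p ∈ dom e c c' :=
        ⟨(e c).map_source hp, by rwa [(e c).left_inv hp]⟩
      have ho : IsOpen (dom e c c') := (e c).symm.isOpen_inter_preimage (e c').open_source
      exact ((he.holo c c').1.contDiffAt (ho.mem_nhds hd)).of_le (by exact_mod_cast le_top)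
    · filter_upwards [(e c).open_source.mem_nhds hp] with x hx
      simp only [tr, (e c).left_inv hx]

theorem IsKahlerSpace.isCoord {Z : Type} [TopologicalSpace Z] {N : ℕ} {P : Type} {U : P → Set Z}
    {q : P → Z → Cn N} {O : P → Set (Cn N)} {K : P → Cn N → ℝ} (h : IsKahlerSpace U q O K) :
    KRFZ.IsCoord U q where
  isOpen := h.isOpen
  cover := h.cover
  cont j := continuousOn_iff_continuous_domRestrict.2 (h.embedding j).continuous
  inj j := injOn_iff_injective.2 (h.embedding j).injective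
  nhds j z hz W hW := by
    have h1 : Subtype.val ⁻¹' W ∈ 𝓝 (⟨z, hz⟩ : U j) := continuous_subtype_val.continuousAt hW
    rw [(h.embedding j).isInducing.nhds_eq_comap] at h1
    obtain ⟨s, hs, hsub⟩ := mem_comap.1 h1
    obtain ⟨ε, hε, hball⟩ := Metric.mem_nhds_iff.1 hs
    exact ⟨ε, hε, fun z' hz' hd => hsub (a := (⟨z', hz'⟩ : U j)) (hball hd)⟩
  lip i j z hz hz' := by
    obtain ⟨S, G, hS, hzS, hG, he⟩ := h.holo i j z ⟨hz, hz'⟩
    refine lip_of_eventually ?_ ((hG.1.contDiffAt (hS.mem_nhds hzS)).of_le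
      (by exact_mod_cast le_top)) he
    exact (continuousOn_iff_continuous_domRestrict.2 (h.embedding i).continuous).continuousAt
      ((h.isOpen i).mem_nhds hz)

end Pool.Agent.KRFT
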